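import Pool.Agent.Helper55.FR.GoalsA

/-!
# Fan-Raspaud, goal CUT

A random 2-colouring of the large components makes at least half of the full edges bad.
-/

namespace Pool.Agent.Helper96.FR

set_option linter.unusedSectionVars false

open Finset Pool.Agent.Helper55.FR

open Classical in
/-- The labelling given by a 2-colouring `c` of the components. -/
noncomputable def lb {V : Type} [DecidableEq V] (T I : Finset V) (Q : Finset (Finset V))
    (c : Finset V → Bool) (x : V) : Lab :=
  if x ∈ T then Lab.T else if x ∈ I then Lab.I else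
    if h : ∃ K ∈ Q, x ∈ K then (if c h.choose = true then Lab.K else Lab.L) else Lab.O

section

variable {V : Type} [Fintype V] [DecidableEq V] {n : Equiv.Perm V} {m : V → V}
  {B : Finset V} {g : ℕ} {T I : Finset V} {Q : Finset (Finset V)}

theorem lb_T (c : Finset V → Bool) {x : V} (hx : x ∈ T) : lb T I Q c x = Lab.T := by
  simp [lb, hx]

theorem lb_I (hp : Pre n m B g T I Q) (c : Finset V → Bool) {x : V} (hx : x ∈ I) :
    lb T I Q c x = Lab.I := by
  have h1 : x ∉ T := fun h => (Finset.disjoint_left.mp hp.tI) h hx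
  simp [lb, hx, h1]

theorem lb_K (hp : Pre n m B g T I Q) (c : Finset V → Bool) {x : V} {K : Finset V} (hK : K ∈ Q)
    (hx : x ∈ K) : lb T I Q c x = if c K = true then Lab.K else Lab.L := by
  have h1 : x ∉ T := fun h => (Finset.disjoint_left.mp (hp.tK K hK)) h hx
  have h2 : x ∉ I := fun h => (Finset.disjoint_left.mp (hp.iK K hK)) h hx
  have h3 : ∃ K ∈ Q, x ∈ K := ⟨K, hK, hx⟩
  have h4 : h3.choose = K := by
    by_contra hne
    exact (Finset.disjoint_left.mp (hp.kK _ h3.choose_spec.1 K hK hne)) h3.choose_spec.2 hx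
  unfold lb
  rw [if_neg h1, if_neg h2, dif_pos h3, h4]

theorem lb_O (c : Finset V → Bool) {x : V} (h1 : x ∉ T) (h2 : x ∉ I) (h3 : ¬ ∃ K ∈ Q, x ∈ K) :
    lb T I Q c x = Lab.O := by
  unfold lb
  rw [if_neg h1, if_neg h2, dif_neg h3]

theorem isK_ite (b : Bool) : isK (if b = true then Lab.K else Lab.L) := by
  cases b <;> simp [isK]

theorem lb_fit (hp : Pre n m B g T I Q) (c : Finset V → Bool) : Fit T I Q (lb T I Q c) := by
  have key : ∀ x, (x ∈ T) ∨ (x ∉ T ∧ x ∈ I) ∨ (x ∉ T ∧ x ∉ I ∧ ∃ K ∈ Q, x ∈ K) ∨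
      (x ∉ T ∧ x ∉ I ∧ ¬ ∃ K ∈ Q, x ∈ K) := by
    intro x
    by_cases h1 : x ∈ T
    · exact Or.inl h1
    by_cases h2 : x ∈ I
    · exact Or.inr (Or.inl ⟨h1, h2⟩)
    by_cases h3 : ∃ K ∈ Q, x ∈ K
    · exact Or.inr (Or.inr (Or.inl ⟨h1, h2, h3⟩))
    · exact Or.inr (Or.inr (Or.inr ⟨h1, h2, h3⟩))
  refine ⟨?_, ?_, ?_, ?_⟩
  · intro x
    rcases key x with h | ⟨h1, h2⟩ | ⟨h1, h2, K, hK, hx⟩ | ⟨h1, h2, h3⟩
    · simp [lb_T c h, h]
    · simp [lb_I hp c h2, h1]
    · rw [lb_K hp c hK hx]
      cases c K <;> simp [h1]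
    · simp [lb_O c h1 h2 h3, h1]
  · intro x
    rcases key x with h | ⟨h1, h2⟩ | ⟨h1, h2, K, hK, hx⟩ | ⟨h1, h2, h3⟩
    · have : x ∉ I := fun h' => (Finset.disjoint_left.mp hp.tI) h h'
      simp [lb_T c h, this]
    · simp [lb_I hp c h2, h2]
    · rw [lb_K hp c hK hx]
      cases c K <;> simp [h2]
    · simp [lb_O c h1 h2 h3, h2]
  · intro x
    rcases key x with h | ⟨h1, h2⟩ | ⟨h1, h2, K, hK, hx⟩ | ⟨h1, h2, h3⟩
    · constructor
      · intro h'
        rw [lb_T c h] at h'
        simp [isK] at h'
      · rintro ⟨K, hK, hx⟩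
        exact absurd hx ((Finset.disjoint_left.mp (hp.tK K hK)) h)
    · constructor
      · intro h'
        rw [lb_I hp c h2] at h'
        simp [isK] at h'
      · rintro ⟨K, hK, hx⟩
        exact absurd hx ((Finset.disjoint_left.mp (hp.iK K hK)) h2)
    · constructor
      · intro _
        exact ⟨K, hK, hx⟩
      · intro _
        rw [lb_K hp c hK hx]
        exact isK_ite _
    · constructor
      · intro h'
        rw [lb_O c h1 h2 h3] at h'
        simp [isK] at h'
      · intro h'
        exact absurd h' h3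
  · intro K hK x hx y hy
    rw [lb_K hp c hK hx, lb_K hp c hK hy]

theorem half_count {K K' : Finset V} (hne : K ≠ K') :
    Fintype.card (Finset V → Bool) ≤
      2 * (univ.filter fun c : Finset V → Bool => c K ≠ c K').card := by
  have h1 : (univ.filter fun c : Finset V → Bool => c K = c K').card ≤
      (univ.filter fun c : Finset V → Bool => c K ≠ c K').card := by
    refine Finset.card_le_card_of_injOn (fun c => Function.update c K (!(c K))) ?_ ?_
    · intro c hc
      have hc' : c K = c K' := by simpa using hc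
      have : Function.update c K (!(c K)) K ≠ Function.update c K (!(c K)) K' := by
        rw [Function.update_self, Function.update_of_ne (Ne.symm hne), hc']
        cases c K' <;> simp
      simpa using this
    · intro c _ d _ h
      have h2 : c K = d K := by
        have := congrFun h K
        simp only [Function.update_self] at this
        cases hc : c K <;> cases hd : d K <;> simp_all
      funext L
      by_cases hL : L = K
      · rw [hL, h2]
      · have := congrFun h L
        simpa only [Function.update_of_ne hL] using this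
  have h2 : (univ.filter fun c : Finset V → Bool => c K = c K').card +
      (univ.filter fun c : Finset V → Bool => c K ≠ c K').card =
      Fintype.card (Finset V → Bool) := by
    rw [← Finset.card_univ]
    exact Finset.card_filter_add_card_filter_not (s := univ)
      (fun c : Finset V → Bool => c K = c K')
  omega

theorem lb_cases (hp : Pre n m B g T I Q) (c : Finset V → Bool) (x : V) (h1 : x ∉ T) :
    (x ∈ I ∧ lb T I Q c x = Lab.I) ∨
      (∃ K ∈ Q, x ∈ K ∧ lb T I Q c x = if c K = true then Lab.K else Lab.L) ∨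
      (x ∉ I ∧ (¬ ∃ K ∈ Q, x ∈ K) ∧ lb T I Q c x = Lab.O) := by
  by_cases h2 : x ∈ I
  · exact Or.inl ⟨h2, lb_I hp c h2⟩
  · by_cases h3 : ∃ K ∈ Q, x ∈ K
    · obtain ⟨K, hK, hx⟩ := h3
      exact Or.inr (Or.inl ⟨K, hK, hx, lb_K hp c hK hx⟩)
    · exact Or.inr (Or.inr ⟨h2, h3, lb_O c h1 h2 h3⟩)

/-- A full vertex is bad for at least half of the colourings. -/
theorem full_half (hp : Pre n m B g T I Q) {x : V} (hx : x ∈ Full m T I Q) :
    Fintype.card (Finset V → Bool) ≤
      2 * (univ.filter fun c : Finset V → Bool => x ∈ Bad m (lb T I Q c)).card := by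
  have hx' := hx
  simp only [Full, mem_filter, mem_univ, true_and] at hx'
  obtain ⟨hT, hmT, hcov, hno⟩ := hx'
  by_cases hKK : (∃ K ∈ Q, x ∈ K) ∧ ∃ K ∈ Q, m x ∈ K
  · obtain ⟨⟨K, hK, hxK⟩, K', hK', hxK'⟩ := hKK
    have hne : K ≠ K' := by
      rintro rfl
      exact hno ⟨K, hK, hxK, hxK'⟩
    refine (half_count hne).trans ?_
    refine Nat.mul_le_mul_left 2 (Finset.card_le_card ?_)
    intro c hc
    simp only [mem_filter, mem_univ, true_and] at hc ⊢
    simp only [Bad, mem_filter, mem_univ, true_and]
    rw [lb_K hp c hK hxK, lb_K hp c hK' hxK']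
    cases h1 : c K <;> cases h2 : c K' <;> simp_all [bad]
  · have hall : ∀ c : Finset V → Bool, x ∈ Bad m (lb T I Q c) := by
      intro c
      simp only [Bad, mem_filter, mem_univ, true_and]
      rcases lb_cases hp c x hT with ⟨ha, hb⟩ | ⟨K, hK, hxK, hb⟩ | ⟨ha, ha', hb⟩ <;>
      rcases lb_cases hp c (m x) hmT with ⟨ka, kb⟩ | ⟨K', hK', hxK', kb⟩ | ⟨ka, ka', kb⟩ <;>
      rw [hb, kb]
      · simp [bad]
      · cases c K' <;> simp [bad]
      · simp [bad]
      · cases c K <;> simp [bad]
      · exact absurd ⟨⟨K, hK, hxK⟩, K', hK', hxK'⟩ hKK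
      · cases c K <;> simp [bad]
      · simp [bad]
      · cases c K' <;> simp [bad]
      · exfalso
        rcases hcov with h | h | h | h
        · exact ha h
        · exact ka h
        · exact ha' h
        · exact ka' h
    have : (univ.filter fun c : Finset V → Bool => x ∈ Bad m (lb T I Q c)) = univ :=
      Finset.filter_true_of_mem fun c _ => hall c
    rw [this, Finset.card_univ]
    omega

end

/-- CUT. -/
theorem cut : CutStmt := by
  intro V _ _ n m B g T I Q hp
  by_contra hcon
  push Not at hcon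
  have h1 : ∀ c : Finset V → Bool, 2 * (Bad m (lb T I Q c)).card < (Full m T I Q).card :=
    fun c => hcon _ (lb_fit hp c)
  have h2 : ∑ c : Finset V → Bool, 2 * (Bad m (lb T I Q c)).card <
      ∑ _c : Finset V → Bool, (Full m T I Q).card :=
    Finset.sum_lt_sum_of_nonempty univ_nonempty fun c _ => h1 c
  have h3 : ∑ _c : Finset V → Bool, (Full m T I Q).card ≤
      ∑ c : Finset V → Bool, 2 * (Bad m (lb T I Q c)).card := by
    have h4 : ∑ _c : Finset V → Bool, (Full m T I Q).card =
        ∑ _x ∈ Full m T I Q, Fintype.card (Finset V → Bool) := by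
      simp [Finset.sum_const, mul_comm]
    have h5 : ∑ _x ∈ Full m T I Q, Fintype.card (Finset V → Bool) ≤
        ∑ x ∈ Full m T I Q,
          2 * (univ.filter fun c : Finset V → Bool => x ∈ Bad m (lb T I Q c)).card :=
      Finset.sum_le_sum fun x hx => full_half hp hx
    have h6 : ∑ x ∈ Full m T I Q,
          2 * (univ.filter fun c : Finset V → Bool => x ∈ Bad m (lb T I Q c)).card ≤
        ∑ c : Finset V → Bool, 2 * (Bad m (lb T I Q c)).card := by
      rw [← Finset.mul_sum, ← Finset.mul_sum]
      refine Nat.mul_le_mul_left 2 ?_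
      simp only [Finset.card_filter]
      rw [Finset.sum_comm]
      refine Finset.sum_le_sum fun c _ => ?_
      rw [← Finset.card_filter]
      refine Finset.card_le_card ?_
      intro x hx
      exact (Finset.mem_filter.mp hx).2
    rw [h4]
    exact h5.trans h6
  exact absurd h3 (not_le.mpr h2)

end Pool.Agent.Helper96.FR
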